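import Pool.Agent.MWFE.StmtsB
import Pool.Agent.Helper19_MWE.CPR

/-!
# Squad MWFE, row ORZ: the order of `x`, `y` in block `0`
-/

set_option autoImplicit false

namespace Pool.Agent.MWFE.H75

open Pool.Agent.Helper14_MV Pool.Agent.Helper2_MV Pool.Agent.MVD
open Pool.Agent.MWE (Can XX fxy dxy dx dy up cp L4 pr Xs xl isx Fs nd nr)
open Pool.Agent.MWGR (cb)
open Pool.Agent.MWE.H19 (sfr_filter sfr_append sfr_cons sfr_nil fxy_nil dxy_self fxy_append
  dxy_append fxy_0 fxy_3 dxy_0 split2 split1)

theorem cb_sp {a : ℕ} {P Q : List ℕ} (h : a ∉ P) (x : ℕ) : cb (P ++ a :: Q) x a = P.count x := by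
  unfold cb
  rw [List.takeWhile_append_of_pos, List.takeWhile_cons_of_neg (by simp), List.append_nil]
  intro c hc
  rw [decide_eq_true_eq]
  rintro rfl
  exact h hc

theorem kz1 (n z : ℕ) : KZ n z [0, 3] = List.replicate n z ++ 0 :: (List.replicate (2 * n) z ++
    (List.replicate (n + 1) z ++ 3 :: List.replicate (2 * n - 1) z)) := by
  simp [KZ, tk, lam]

theorem kz2 (n z : ℕ) : KZ n z [3, 0] = List.replicate (n + 1) z ++ 3 ::
    (List.replicate (2 * n - 1) z ++ (List.replicate n z ++ 0 :: List.replicate (2 * n) z)) := by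
  simp [KZ, tk, lam]

theorem fxy_rep {z : ℕ} (h0 : z ≠ 0) (h3 : z ≠ 3) (k : ℕ) : fxy (List.replicate k z) = [] := by
  apply fxy_nil
  · intro h
    exact h0 (List.eq_of_mem_replicate h).symm
  · intro h
    exact h3 (List.eq_of_mem_replicate h).symm

theorem fxy_kz {n z : ℕ} (h0 : z ≠ 0) (h3 : z ≠ 3) {X : List ℕ} (hX : XX X) :
    fxy (KZ n z X) = X := by
  rcases hX with rfl | rfl
  · rw [kz1, fxy_append, fxy_0, fxy_append, fxy_append, fxy_3, fxy_rep h0 h3, fxy_rep h0 h3,
      fxy_rep h0 h3, fxy_rep h0 h3]
    rfl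
  · rw [kz2, fxy_append, fxy_3, fxy_append, fxy_append, fxy_0, fxy_rep h0 h3, fxy_rep h0 h3,
      fxy_rep h0 h3, fxy_rep h0 h3]
    rfl

theorem sfr_rep {z : ℕ} (hz : z % 3 ≠ 2) (k : ℕ) : SFr (List.replicate k z) := by
  intro a ha
  rw [List.eq_of_mem_replicate ha]
  exact hz

theorem sfr_kz {n z : ℕ} (hz : z % 3 ≠ 2) {X : List ℕ} (hX : XX X) : SFr (KZ n z X) := by
  rcases hX with rfl | rfl
  · rw [kz1]
    exact sfr_append (sfr_rep hz _) (sfr_cons (by norm_num) (sfr_append (sfr_rep hz _)
      (sfr_append (sfr_rep hz _) (sfr_cons (by norm_num) (sfr_rep hz _)))))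
  · rw [kz2]
    exact sfr_append (sfr_rep hz _) (sfr_cons (by norm_num) (sfr_append (sfr_rep hz _)
      (sfr_append (sfr_rep hz _) (sfr_cons (by norm_num) (sfr_rep hz _)))))

theorem cnt_kz_z {n z : ℕ} (hn : 1 ≤ n) (h0 : z ≠ 0) (h3 : z ≠ 3) {X : List ℕ} (hX : XX X) :
    (KZ n z X).count z = 6 * n := by
  rcases hX with rfl | rfl
  · rw [kz1, List.count_append, List.count_cons_of_ne (Ne.symm h0), List.count_append,
      List.count_append, List.count_cons_of_ne (Ne.symm h3), List.count_replicate_self,
      List.count_replicate_self, List.count_replicate_self, List.count_replicate_self]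
    omega
  · rw [kz2, List.count_append, List.count_cons_of_ne (Ne.symm h3), List.count_append,
      List.count_append, List.count_cons_of_ne (Ne.symm h0), List.count_replicate_self,
      List.count_replicate_self, List.count_replicate_self, List.count_replicate_self]
    omega

theorem cnt_kz {n z a : ℕ} (ha : a ≠ z) {X : List ℕ} (hX : XX X) :
    (KZ n z X).count a = if a = 0 ∨ a = 3 then 1 else 0 := by
  have hr : ∀ k, (List.replicate k z).count a = 0 := fun k => by
    rw [List.count_eq_zero]
    intro h
    exact ha (List.eq_of_mem_replicate h)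
  by_cases h0 : a = 0
  · subst h0
    rcases hX with rfl | rfl
    · rw [kz1, List.count_append, List.count_cons_self, List.count_append, List.count_append,
        List.count_cons_of_ne (by norm_num), hr, hr, hr, hr]
      rfl
    · rw [kz2, List.count_append, List.count_cons_of_ne (by norm_num), List.count_append,
        List.count_append, List.count_cons_self, hr, hr, hr, hr]
      rfl
  · by_cases h3 : a = 3
    · subst h3
      rcases hX with rfl | rfl
      · rw [kz1, List.count_append, List.count_cons_of_ne (by norm_num), List.count_append,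
          List.count_append, List.count_cons_self, hr, hr, hr, hr]
        rfl
      · rw [kz2, List.count_append, List.count_cons_self, List.count_append, List.count_append,
          List.count_cons_of_ne (by norm_num), hr, hr, hr, hr]
        rfl
    · rw [if_neg (by omega)]
      rcases hX with rfl | rfl
      · rw [kz1, List.count_append, List.count_cons_of_ne (Ne.symm h0), List.count_append,
          List.count_append, List.count_cons_of_ne (Ne.symm h3), hr, hr, hr, hr]
      · rw [kz2, List.count_append, List.count_cons_of_ne (Ne.symm h3), List.count_append,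
          List.count_append, List.count_cons_of_ne (Ne.symm h0), hr, hr, hr, hr]

theorem nrep {z a : ℕ} (h : a ≠ z) (k : ℕ) : a ∉ List.replicate k z := by
  intro h'
  exact h (List.eq_of_mem_replicate h')

theorem tk2_kz {n z : ℕ} (hn : 1 ≤ n) (h0 : z ≠ 0) (h3 : z ≠ 3) {X : List ℕ} (hX : XX X)
    (D : List ℕ) : Tk2 z (KZ n z X ++ D) := by
  intro v hv
  rw [List.count_append, cnt_kz_z hn h0 h3 hX]
  rcases hX with rfl | rfl
  · rcases hv with rfl | rfl
    · have e : KZ n z [0, 3] ++ D = List.replicate n z ++ 0 :: ((List.replicate (2 * n) z ++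
          (List.replicate (n + 1) z ++ 3 :: List.replicate (2 * n - 1) z)) ++ D) := by
        rw [kz1]
        simp only [List.append_assoc, List.cons_append]
      rw [e, cb_sp (nrep (Ne.symm h0) n), List.count_replicate_self]
      omega
    · have e : KZ n z [0, 3] ++ D = (List.replicate n z ++ 0 :: (List.replicate (2 * n) z ++
          List.replicate (n + 1) z)) ++ 3 :: (List.replicate (2 * n - 1) z ++ D) := by
        rw [kz1]
        simp only [List.append_assoc, List.cons_append]
      rw [e, cb_sp, List.count_append, List.count_cons_of_ne (Ne.symm h0), List.count_append,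
        List.count_replicate_self, List.count_replicate_self, List.count_replicate_self]
      · omega
      · simp only [List.mem_append, List.mem_cons, not_or]
        exact ⟨nrep (Ne.symm h3) _, by norm_num, nrep (Ne.symm h3) _, nrep (Ne.symm h3) _⟩
  · rcases hv with rfl | rfl
    · have e : KZ n z [3, 0] ++ D = (List.replicate (n + 1) z ++ 3 ::
          (List.replicate (2 * n - 1) z ++ List.replicate n z)) ++ 0 ::
            (List.replicate (2 * n) z ++ D) := by
        rw [kz2]
        simp only [List.append_assoc, List.cons_append]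
      rw [e, cb_sp, List.count_append, List.count_cons_of_ne (Ne.symm h3), List.count_append,
        List.count_replicate_self, List.count_replicate_self, List.count_replicate_self]
      · omega
      · simp only [List.mem_append, List.mem_cons, not_or]
        exact ⟨nrep (Ne.symm h0) _, by norm_num, nrep (Ne.symm h0) _, nrep (Ne.symm h0) _⟩
    · have e : KZ n z [3, 0] ++ D = List.replicate (n + 1) z ++ 3 ::
          ((List.replicate (2 * n - 1) z ++ (List.replicate n z ++ 0 ::
            List.replicate (2 * n) z)) ++ D) := by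
        rw [kz2]
        simp only [List.append_assoc, List.cons_append]
      rw [e, cb_sp (nrep (Ne.symm h3) (n + 1)), List.count_replicate_self]
      omega

theorem tk2_pad {n z : ℕ} (hn : 1 ≤ n) (h0 : z ≠ 0) (h3 : z ≠ 3) {D : List ℕ} (d0 : 0 ∈ D)
    (d3 : 3 ∈ D) : Tk2 z (List.replicate n z ++ (D ++ List.replicate n z)) := by
  intro v hv
  have hvD : v ∈ D := by
    rcases hv with rfl | rfl
    · exact d0
    · exact d3
  have hvz : v ≠ z := by
    rcases hv with rfl | rfl
    · exact Ne.symm h0
    · exact Ne.symm h3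
  obtain ⟨P, Q, hD, hP⟩ : ∃ P Q, D = P ++ v :: Q ∧ v ∉ P := by
    have h := List.takeWhile_append_dropWhile (p := fun c => decide (c ≠ v)) (l := D)
    cases hd : D.dropWhile (fun c => decide (c ≠ v)) with
    | nil =>
      exfalso
      rw [List.dropWhile_eq_nil_iff] at hd
      have := hd v hvD
      simp at this
    | cons b Q =>
      have hb : b = v := by
        have h1 := List.head_dropWhile_not (fun c => decide (c ≠ v)) (by rw [hd]; simp)
        simp only [hd, List.head_cons] at h1
        by_contra hne
        simp [hne] at h1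
      refine ⟨D.takeWhile (fun c => decide (c ≠ v)), Q, ?_, ?_⟩
      · rw [hd, hb] at h
        exact h.symm
      · intro hm
        have := List.mem_takeWhile_imp hm
        simp at this
  have e : List.replicate n z ++ (D ++ List.replicate n z) =
      (List.replicate n z ++ P) ++ v :: (Q ++ List.replicate n z) := by
    rw [hD]
    simp only [List.append_assoc, List.cons_append]
  rw [e, cb_sp, List.count_append, List.count_replicate_self]
  · rw [List.count_append, List.count_append, List.count_replicate_self,
      List.count_cons_of_ne hvz, List.count_append, List.count_replicate_self]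
    omega
  · simp only [List.mem_append, not_or]
    exact ⟨nrep hvz n, hP⟩

theorem orz (h1 : LqrStmt) (h2 : BazStmt) (h3 : LbzStmt) (h4 : TrzStmt) (h5 : BlnStmt) :
    OrzStmt := by
  intro n β m R c X B e S hX hsB hse hB
  have hn2 : 2 ≤ n := S.hz.n2
  obtain ⟨z, hz⟩ : ∃ z, z = 3 * m + 1 := ⟨_, rfl⟩
  have hz2 : z % 3 ≠ 2 := by omega
  have hz0 : z ≠ 0 := by omega
  have hz3 : z ≠ 3 := by omega
  obtain ⟨B', hB'⟩ : ∃ B', B' = pz n (3 * m + 1) B := ⟨_, rfl⟩
  rw [← hB'] at hB
  have hB'0 : B' 0 = List.replicate n z ++ (B 0 ++ List.replicate n z) := by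
    rw [hB', hz]
    rfl
  have hB'r : ∀ r, r ≠ 0 → B' r = B r := by
    intro r hr
    rw [hB']
    unfold pz up
    rw [if_neg hr]
  have hsB' : ∀ r, SFr (B' r) := by
    intro r
    by_cases hr : r = 0
    · rw [hr, hB'0]
      exact sfr_append (sfr_rep hz2 _) (sfr_append (hsB 0) (sfr_rep hz2 _))
    · rw [hB'r r hr]
      exact hsB r
  have hBz := h2 n β m R c X B' e S.hz S.can S.pR S.b01 hX hsB' hse hB
  have hx0 : (B 0).count 0 = 1 := by
    have h := hBz.x0
    rw [hB'0, List.count_append, List.count_append, List.count_eq_zero.2 (nrep (Ne.symm hz0) n)] at h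
    omega
  have hy0 : (B 0).count 3 = 1 := by
    have h := hBz.y0
    rw [hB'0, List.count_append, List.count_append, List.count_eq_zero.2 (nrep (Ne.symm hz3) n)] at h
    omega
  have hX0 : XX (fxy (B 0)) := by
    rcases split2 hx0 hy0 with ⟨A, g, C, hE, a0, g0, c0, a3, g3, c3⟩ |
      ⟨A, g, C, hE, a0, g0, c0, a3, g3, c3⟩
    · left
      rw [hE, fxy_append, fxy_0, fxy_append, fxy_3, fxy_nil a0 a3, fxy_nil g0 g3, fxy_nil c0 c3]
      rfl
    · right
      rw [hE, fxy_append, fxy_3, fxy_append, fxy_0, fxy_nil a0 a3, fxy_nil g0 g3, fxy_nil c0 c3]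
      rfl
  obtain ⟨X0, hX0e⟩ : ∃ X0, X0 = fxy (B 0) := ⟨_, rfl⟩
  rw [← hX0e] at hX0 ⊢
  have hfB' : fxy (B' 0) = X0 := by
    rw [hB'0, fxy_append, fxy_append, fxy_rep hz0 hz3, hX0e, List.append_nil]
    rfl
  obtain ⟨h, hB1, hh0, hh3, hall, -⟩ := S.hb X B e hX hsB hse (by rw [hB'] at hB; exact hB)
  have hW := (h4 n β m R c X B' e S.hz S.can S.pR S.b01 hX hsB' hse hB).1 X0 hX0
  obtain ⟨W, hWe⟩ : ∃ W, W = tbz n m B' X0 := ⟨_, rfl⟩
  rw [← hWe] at hW
  have hW0 : W 0 = KZ n z X0 ++ dxy (B' 0) := by
    rw [hWe, hz]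
    rfl
  have hW1 : W 1 = B 1 := by
    have e1 : W 1 = 0 :: (dxy (B' 1) ++ [3]) := by
      rw [hWe]
      rfl
    rw [e1, hB'r 1 one_ne_zero, hB1, dxy_0, dxy_append, dxy_self hh0 hh3]
    have e2 : dxy [3] = [] := rfl
    rw [e2, List.append_nil]
  have hWr : ∀ r, r ≠ 0 → W r = B' r := by
    intro r hr
    by_cases hr1 : r = 1
    · rw [hr1, hW1, hB'r 1 one_ne_zero]
    · rw [hWe]
      unfold tbz
      rw [if_neg hr, if_neg hr1]
  have hsW : ∀ r, SFr (W r) := by
    intro r
    by_cases hr : r = 0
    · rw [hr, hW0]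
      exact sfr_append (sfr_kz hz2 hX0) (sfr_filter (hsB' 0))
    · rw [hWr r hr]
      exact hsB' r
  have hWz := h2 n β m R c X0 W e S.hz S.can S.pR S.b01 hX0 hsW hse hW
  have hfu : ∀ a ∈ c, a ∈ W 1 := by
    intro a ha
    rw [hW1, hB1]
    exact List.mem_cons_of_mem _ (List.mem_append_left _ (hall a ha))
  have hWf : Bfz m R c W e := { hWz with fu := hfu }
  have hfd : fxy (dxy (B' 0)) = [] := by
    apply fxy_nil
    · intro hh
      unfold dxy at hh
      have := List.of_mem_filter hh
      simp at this
    · intro hh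
      unfold dxy at hh
      have := List.of_mem_filter hh
      simp at this
  have hcd : ∀ a, a ≠ 0 → a ≠ 3 → (dxy (B' 0)).count a = (B' 0).count a := by
    intro a ha0 ha3
    unfold dxy
    rw [List.count_filter]
    simp [ha0, ha3]
  have hcd0 : (dxy (B' 0)).count 0 = 0 := by
    rw [List.count_eq_zero]
    intro hh
    unfold dxy at hh
    have := List.of_mem_filter hh
    simp at this
  have hcd3 : (dxy (B' 0)).count 3 = 0 := by
    rw [List.count_eq_zero]
    intro hh
    unfold dxy at hh
    have := List.of_mem_filter hh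
    simp at this
  obtain ⟨q1, q2, q3, -, -⟩ := h1 n β S.hz
  have hl1 := (h3 n β m R c X B' e S.hz S.can S.pR S.b01 hX hsB' hse hB).1
  have hl2 := (h3 n β m R c X0 W e S.hz S.can S.pR S.b01 hX0 hsW hse hW).1
  have hmv := h5 n β m R c W e S.hz S.can S.pR S.b01 hWf (B' 0) (hsB' 0)
    (by rw [hfB', hW0, fxy_append, fxy_kz hz0 hz3 hX0, hfd, List.append_nil])
    (by
      rw [List.perm_iff_count]
      intro a
      unfold dz
      by_cases ha : a = 3 * m + 1
      · rw [List.count_eq_zero.2, List.count_eq_zero.2]
        · intro hh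
          have := List.of_mem_filter hh
          simp [ha] at this
        · intro hh
          have := List.of_mem_filter hh
          simp [ha] at this
      · rw [List.count_filter (by simp [ha]), List.count_filter (by simp [ha]), hW0,
          List.count_append, cnt_kz (by rw [hz]; exact ha) hX0]
        by_cases ha0 : a = 0
        · rw [ha0, hcd0, hBz.x0]
          rfl
        · by_cases ha3 : a = 3
          · rw [ha3, hcd3, hBz.y0]
            rfl
          · rw [hcd a ha0 ha3, if_neg (by omega), zero_add])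
    (fun v hv => q3 _ _ _ (hl2 v hv) (q2 _ _ (hl1 v hv)))
    (by
      rw [hW0, List.count_append, ← hz, cnt_kz_z (by omega) hz0 hz3 hX0, hcd z hz0 hz3]
      unfold Nat.ModEq
      rw [mul_comm 6 n, Nat.mul_add_mod])
    (by
      rw [hW0, ← hz]
      exact tk2_kz (by omega) hz0 hz3 hX0 _)
    (by
      rw [hB'0, ← hz]
      exact tk2_pad (by omega) hz0 hz3 (List.count_pos_iff.1 (by omega))
        (List.count_pos_iff.1 (by omega)))
  have hup : up W 0 (B' 0) = B' := by
    funext r
    unfold up
    by_cases hr : r = 0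
    · rw [if_pos hr, hr]
    · rw [if_neg hr, hWr r hr]
  rw [hup] at hmv
  have hfin : RR β (ExZ n m R c X0) (ExZ n m R c X) :=
    β.trans (β.trans hW hmv) hB.symm
  rcases hX with hX | hX
  · rcases hX0 with hX0 | hX0
    · rw [hX, hX0]
    · rw [hX, hX0] at hfin
      exact absurd hfin.symm S.no
  · rcases hX0 with hX0 | hX0
    · rw [hX, hX0] at hfin
      exact absurd hfin S.no
    · rw [hX, hX0]

end Pool.Agent.MWFE.H75
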